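import Pool.Agent.N24.RW.Stm
import Pool.Agent.N692.TS.Main
import Pool.Agent.Results.MP_2194ec_nt.PolynomialLehmer

/-!
# Random orbits: the local criterion for the dynamical Lehmer inequality for polynomials (helper954)
-/

set_option autoImplicit false

namespace Pool.Agent.N954.RO

open NumberField IsDedekindDomain Finset Filter Topology MeasureTheory
open Pool.Agent.N692.TS Pool.Agent.N24.RW
open Pool.Agent.N666.TM (dens)

section one

variable {K : Type} [Field K] [NumberField K] {m : ℕ} (ω : Module.Basis (Fin m) ℤ (𝓞 K))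

theorem pronull_loc (hC : S_CRIT) (hD : S_CLO) (d : ℕ) (hd : 2 ≤ d) (M : ℕ) :
    ProNull {c : Fin (d + 2) × Fin m → ℤ | ¬ LocGood d M (vec ω d c)} := by
  classical
  set Ω : ∀ p : ℕ, Set (Fin (d + 2) × Fin m → ZMod (p ^ 2)) := fun p =>
    if h : ∃ v : HeightOneSpectrum (𝓞 K), Ideal.absNorm v.asIdeal = p then
      Gd ω d h.choose p h.choose_spec else ∅ with hΩ
  set w : ℕ → ℝ := fun p =>
    if ∃ v : HeightOneSpectrum (𝓞 K), Ideal.absNorm v.asIdeal = p then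
      1 / (4 * d) * (1 / (p : ℝ) - 1 / (p : ℝ) ^ 2) else 0 with hw
  have hd0 : (0 : ℝ) < d := by exact_mod_cast (by omega : 0 < d)
  have hterm : ∀ p : ℕ, 0 ≤ 1 / (p : ℝ) - 1 / (p : ℝ) ^ 2 := by
    intro p
    rcases Nat.eq_zero_or_pos p with rfl | hp
    · simp
    · have hp1 : (1 : ℝ) ≤ p := by exact_mod_cast hp
      rw [sub_nonneg]
      apply one_div_le_one_div_of_le (by linarith)
      nlinarith
  have hw0 : ∀ p, 0 ≤ w p := by
    intro p
    rw [hw]
    simp only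
    split_ifs
    · exact mul_nonneg (by positivity) (hterm p)
    · exact le_rfl
  have hns : ¬ Summable (fun p : ℕ => if p.Prime then w p else 0) := by
    intro hs
    obtain ⟨U, v, hU, hUs⟩ := supply_sum K 0 (4 * d * ((∑' p : ℕ, if p.Prime then w p else 0) + 1))
    have h1 := hs.sum_le_tsum U (fun p _ => by
      split_ifs
      · exact hw0 p
      · exact le_rfl)
    have h2 : ∑ p ∈ U, (if p.Prime then w p else 0) =
        1 / (4 * d) * ∑ p ∈ U, (1 / (p : ℝ) - 1 / (p : ℝ) ^ 2) := by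
      rw [Finset.mul_sum]
      refine Finset.sum_congr rfl fun p hp => ?_
      rw [if_pos (hU p hp).1, hw]
      simp only
      rw [if_pos ⟨v p, (hU p hp).2.2⟩]
    rw [h2] at h1
    have h3 : (∑' p : ℕ, if p.Prime then w p else 0) + 1 ≤
        1 / (4 * d) * ∑ p ∈ U, (1 / (p : ℝ) - 1 / (p : ℝ) ^ 2) := by
      have h4 := mul_le_mul_of_nonneg_left hUs (show (0 : ℝ) ≤ 1 / (4 * d) by positivity)
      have h5 : 1 / (4 * (d : ℝ)) * (4 * d * ((∑' p : ℕ, if p.Prime then w p else 0) + 1)) =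
          (∑' p : ℕ, if p.Prime then w p else 0) + 1 := by field_simp
      rwa [h5] at h4
    linarith
  have hkey := hC (Fin (d + 2) × Fin m) (fun p => p ^ 2) (fun p hp => Nat.one_le_pow _ _ hp.pos)
    (fun p p' hp hp' hne => Nat.Coprime.pow 2 2 ((Nat.coprime_primes hp hp').mpr hne)) Ω M w hw0 hns
    (by
      intro p hp _
      by_cases hv : ∃ v : HeightOneSpectrum (𝓞 K), Ideal.absNorm v.asIdeal = p
      · have e1 : w p = 1 / (4 * d) * (1 / (p : ℝ) - 1 / (p : ℝ) ^ 2) := by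
          rw [hw]; simp only; rw [if_pos hv]
        have e2 : Ω p = Gd ω d hv.choose p hv.choose_spec := by
          rw [hΩ]; simp only; rw [dif_pos hv]
        have e3 := dens_Gd ω d hv.choose p hv.choose_spec hd hp
        rw [← e1, ← e2] at e3
        unfold Pool.Agent.N666.TM.dens at e3
        have hq : (0 : ℝ) < ((p ^ 2 : ℕ) : ℝ) ^ Fintype.card (Fin (d + 2) × Fin m) := by
          have : (0 : ℝ) < ((p ^ 2 : ℕ) : ℝ) := by exact_mod_cast pow_pos hp.pos 2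
          positivity
        rwa [le_div_iff₀ hq] at e3
      · have e1 : w p = 0 := by rw [hw]; simp only; rw [if_neg hv]
        rw [e1, zero_mul]
        exact Nat.cast_nonneg _)
  refine (hD (Fin (d + 2) × Fin m)).1 _ _ ?_ hkey
  intro c hc p hp hMp hmem
  apply hc
  by_cases hv : ∃ v : HeightOneSpectrum (𝓞 K), Ideal.absNorm v.asIdeal = p
  · have e2 : Ω p = Gd ω d hv.choose p hv.choose_spec := by
      rw [hΩ]; simp only; rw [dif_pos hv]
    rw [e2] at hmem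
    exact ⟨hv.choose, not_mem_of_norm hv.choose hp hMp hv.choose_spec,
      mem_Gd ω d hv.choose p hv.choose_spec c hmem⟩
  · have e2 : Ω p = ∅ := by
      rw [hΩ]; simp only; rw [dif_neg hv]
    rw [e2] at hmem
    exact absurd hmem (Set.notMem_empty _)

end one

/-- the vectors which are bad for some integral basis with given structure constants -/
def ExcC {m : ℕ} (κ : Fin m × Fin m × Fin m → ℤ) (d M : ℕ) : Set (Fin (d + 2) × Fin m → ℤ) :=
  {c | ∃ (K : Type) (_ : Field K) (_ : NumberField K) (ω : Module.Basis (Fin m) ℤ (𝓞 K)),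
    code ω = κ ∧ ¬ LocGood d M (vec ω d c)}

theorem excC_sub {m : ℕ} (κ : Fin m × Fin m × Fin m → ℤ) (d M : ℕ) {K₀ : Type} [Field K₀]
    [NumberField K₀] (ω₀ : Module.Basis (Fin m) ℤ (𝓞 K₀)) (hω₀ : code ω₀ = κ) :
    ExcC κ d M ⊆ {c | ¬ LocGood d M (vec ω₀ d c)} := by
  rintro c ⟨K, _, _, ω, hω, hn⟩ hgood
  apply hn
  obtain ⟨e, he⟩ := exists_equiv ω₀ ω (hω₀.trans hω.symm)
  have h1 := locGood_transfer e d M _ hgood
  have h2 : (fun i => e (vec ω₀ d c i)) = vec ω d c := by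
    funext i
    unfold vec
    rw [map_sum]
    refine Finset.sum_congr rfl fun j _ => ?_
    rw [map_zsmul, he]
  rwa [h2] at h1

theorem excC_null (hC : S_CRIT) (hD : S_CLO) {m : ℕ} (κ : Fin m × Fin m × Fin m → ℤ) (d : ℕ)
    (hd : 2 ≤ d) (M : ℕ) (K₀ : Type) [Field K₀]
    [NumberField K₀] (ω₀ : Module.Basis (Fin m) ℤ (𝓞 K₀)) (hω₀ : code ω₀ = κ) :
    ProNull (ExcC κ d M) :=
  (hD _).1 _ _ (excC_sub κ d M ω₀ hω₀) (pronull_loc ω₀ hC hD d hd M)

theorem almost_all (hC : S_CRIT) (hD : S_CLO) (hM : S_MAIN) {m : ℕ} (d : ℕ) (hd : 2 ≤ d)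
    (W : Walk (Fin (d + 2) × Fin m)) (v : Fin (d + 2) × Fin m → ℤ) (hv : v ≠ 0) :
    ∀ᵐ w ∂(words W.m), ∀ (κ : Fin m × Fin m × Fin m → ℤ) (M : ℕ),
      Tendsto (fun N : ℕ => (({n : ℕ | n < N ∧ orb W v w n ∈ ExcC κ d M}.ncard : ℕ) : ℝ) / (N : ℝ))
        atTop (𝓝 0) := by
  rw [ae_all_iff]
  intro κ
  rw [ae_all_iff]
  intro M
  by_cases hex : ∃ (K : Type) (_ : Field K) (_ : NumberField K)
      (ω : Module.Basis (Fin m) ℤ (𝓞 K)), code ω = κ
  · obtain ⟨K₀, _, _, ω₀, hω₀⟩ := hex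
    have hne : Nonempty (Fin m) := ω₀.index_nonempty
    have hm : 1 ≤ m := Fin.pos_iff_nonempty.2 hne
    have hcard : 2 ≤ Fintype.card (Fin (d + 2) × Fin m) := by
      rw [Fintype.card_prod, Fintype.card_fin, Fintype.card_fin]
      nlinarith
    exact hM _ hcard W v hv _ (excC_null hC hD κ d hd M K₀ ω₀ hω₀)
  · have he : ∀ c, c ∉ ExcC κ d M := by
      rintro c ⟨K, i1, i2, ω, hω, -⟩
      exact hex ⟨K, i1, i2, ω, hω⟩
    refine Filter.Eventually.of_forall fun w => ?_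
    have : ∀ N : ℕ, {n : ℕ | n < N ∧ orb W v w n ∈ ExcC κ d M} = ∅ := by
      intro N
      rw [Set.eq_empty_iff_forall_notMem]
      rintro n ⟨-, hn⟩
      exact he _ hn
    simp only [this, Set.ncard_empty, Nat.cast_zero, zero_div]
    exact tendsto_const_nhds

/-- a smaller set of times -/
theorem tendsto_sub {A B : Set ℕ} (h : A ⊆ B)
    (hB : Tendsto (fun N : ℕ => (({n : ℕ | n < N ∧ n ∈ B}.ncard : ℕ) : ℝ) / (N : ℝ)) atTop (𝓝 0)) :
    Tendsto (fun N : ℕ => (({n : ℕ | n < N ∧ n ∈ A}.ncard : ℕ) : ℝ) / (N : ℝ)) atTop (𝓝 0) := by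
  refine squeeze_zero (fun N => by positivity) (fun N => ?_) hB
  have hfin : {n : ℕ | n < N ∧ n ∈ B}.Finite := (Set.finite_lt_nat N).subset fun n hn => hn.1
  have h1 : {n : ℕ | n < N ∧ n ∈ A} ⊆ {n : ℕ | n < N ∧ n ∈ B} := fun n hn => ⟨hn.1, h hn.2⟩
  have h2 : (({n : ℕ | n < N ∧ n ∈ A}.ncard : ℕ) : ℝ) ≤ (({n : ℕ | n < N ∧ n ∈ B}.ncard : ℕ) : ℝ) := by
    exact_mod_cast Set.ncard_le_ncard h1 hfin
  exact div_le_div_of_nonneg_right h2 (Nat.cast_nonneg _)

section bad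

open Module Pool.Agent.TH377.Dyn Pool.Agent.TH377.Sup
open Pool.Agent.Results.MP_2194ec_nt.PolynomialLehmer (Exceptional)

/-- as in `MP_2194ec_nt.ThinSequences` (helper692) -/
theorem not_exceptional {K : Type} [Field K] [NumberField K] {d : ℕ} (hd : 2 ≤ d) {B : ℝ} (hB : 0 < B)
    (c : Fin (d + 2) → 𝓞 K) (h : LocGood d ⌈Real.exp (B * d * finrank ℚ K)⌉₊ c) :
    c ∉ Exceptional K d B := by
  obtain ⟨v, hDv, h1, h2, h3⟩ := h
  intro hc
  apply hc
  have h0 : c 0 ≠ 0 := by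
    intro h0
    apply h2
    rw [h0]
    exact zero_mem _
  have hdeg := Pool.Agent.Results.MP_2194ec_nt.PolynomialLehmer.poly_natDegree c h0 v h3
  refine ⟨h0, hdeg, ?_⟩
  intro L _ _ _ x hL
  have hN : B * d * finrank ℚ K ≤ Real.log (Ideal.absNorm v.asIdeal) := by
    have g1 := Pool.Agent.TH377.Dyn.lt_norm v _ hDv
    have g2 : Real.exp (B * d * finrank ℚ K) ≤ Ideal.absNorm v.asIdeal :=
      (Nat.le_ceil _).trans (Nat.cast_le.2 g1.le)
    exact (Real.le_log_iff_exp_le ((Real.exp_pos _).trans_le g2)).2 g2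
  have := Pool.Agent.TH377.Dyn.lehmer hd B hB c v h0 h1 h3 hN x hL
  unfold Pool.Agent.Results.MP_2194ec_nt.PolynomialLehmer.IsCanonicalHeight
  rw [hdeg]
  exact this

theorem exceptional_pronull (hC : S_CRIT) (hD : S_CLO) {m : ℕ} (d : ℕ) (hd : 2 ≤ d) (K : Type)
    [Field K] [NumberField K] (ω : Module.Basis (Fin m) ℤ (𝓞 K)) (B : ℝ) (hB : 0 < B) :
    ProNull {c : Fin (d + 2) × Fin m → ℤ | vec ω d c ∈ Exceptional K d B} :=
  (hD _).1 _ _ (fun c hc hg => not_exceptional hd hB _ hg hc)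
    (pronull_loc ω hC hD d hd ⌈Real.exp (B * d * finrank ℚ K)⌉₊)

theorem exceptional_orbit (hC : S_CRIT) (hD : S_CLO) (hM : S_MAIN) {m : ℕ} (d : ℕ) (hd : 2 ≤ d)
    (W : Walk (Fin (d + 2) × Fin m)) (v : Fin (d + 2) × Fin m → ℤ) (hv : v ≠ 0) :
    ∀ᵐ w ∂(words W.m), ∀ (K : Type) [Field K] [NumberField K] (ω : Module.Basis (Fin m) ℤ (𝓞 K))
      (B : ℝ), 0 < B →
      Tendsto (fun N : ℕ => (({n : ℕ | n < N ∧
        vec ω d (orb W v w n) ∈ Exceptional K d B}.ncard : ℕ) : ℝ) / (N : ℝ)) atTop (𝓝 0) := by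
  filter_upwards [almost_all hC hD hM d hd W v hv] with w hw
  intro K _ _ ω B hB
  have h1 := hw (code ω) ⌈Real.exp (B * d * finrank ℚ K)⌉₊
  refine tendsto_sub (A := {n | vec ω d (orb W v w n) ∈ Exceptional K d B})
    (B := {n | orb W v w n ∈ ExcC (code ω) d ⌈Real.exp (B * d * finrank ℚ K)⌉₊}) ?_ h1
  intro n hn
  exact ⟨K, inferInstance, inferInstance, ω, rfl, fun hg => not_exceptional hd hB _ hg hn⟩

end bad

end Pool.Agent.N954.RO
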